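import Pool.Agent.MP_630a92_gt.BC.Defs

section

/-! Global inverses of maps that are the identity near infinity; integrals with parameters. -/

namespace Pool.Agent.MP_630a92_gt.BC

open Set Filter Topology Function
open scoped ContDiff

variable {E : Type} [NormedAddCommGroup E] [NormedSpace ℝ E]
  {P : Type} [NormedAddCommGroup P] [NormedSpace ℝ P]

theorem int_nat [FiniteDimensional ℝ P] (n : ℕ) : ∀ {E : Type} [NormedAddCommGroup E]
    [NormedSpace ℝ E] [CompleteSpace E] {G : P × ℝ → E}, ContDiff ℝ ∞ G →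
    ContDiff ℝ n fun x => ∫ t in (0 : ℝ)..1, G (x, t) := by
  induction n with
  | zero =>
    intro E _ _ _ G hG
    exact contDiff_zero.2 (intervalIntegral.continuous_parametric_intervalIntegral_of_continuous'
      (f := fun x t => G (x, t)) hG.continuous 0 1)
  | succ n ih =>
    intro E _ _ _ G hG
    have h1 : ContDiff ℝ ∞ fun y => (fderiv ℝ G y).comp (ContinuousLinearMap.inl ℝ P ℝ) :=
      (contDiff_infty_iff_fderiv.1 hG).2.clm_comp contDiff_const
    refine contDiff_succ_iff_hasFDerivAt.2 ⟨_, ih h1, fun x => ?_⟩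
    have := FiniteDimensional.proper_real P
    obtain ⟨C, hC⟩ := ((isCompact_closedBall x 1).prod
      (isCompact_uIcc (a := (0 : ℝ)) (b := 1))).exists_bound_of_continuousOn
        h1.continuous.continuousOn
    refine intervalIntegral.hasFDerivAt_integral_of_dominated_of_fderiv_le
      (F := fun x t => G (x, t))
      (F' := fun x t => (fderiv ℝ G (x, t)).comp (ContinuousLinearMap.inl ℝ P ℝ))
      (bound := fun _ => C) (Metric.closedBall_mem_nhds x one_pos)
      (Eventually.of_forall fun y =>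
        (hG.continuous.comp (Continuous.prodMk_right y)).aestronglyMeasurable)
      ((hG.continuous.comp (Continuous.prodMk_right x)).intervalIntegrable _ _)
      (h1.continuous.comp (Continuous.prodMk_right x)).aestronglyMeasurable
      (Eventually.of_forall fun t ht y hy => hC (y, t) ⟨hy, uIoc_subset_uIcc ht⟩)
      intervalIntegrable_const (Eventually.of_forall fun t _ y _ => ?_)
    exact (hG.differentiable (by simp) (y, t)).hasFDerivAt.comp y (hasFDerivAt_prodMk_left y t)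

theorem int_smooth [FiniteDimensional ℝ P] [CompleteSpace E] {G : P × ℝ → E}
    (hG : ContDiff ℝ ∞ G) : ContDiff ℝ ∞ fun x => ∫ t in (0 : ℝ)..1, G (x, t) :=
  contDiff_infty.2 fun n => int_nat n hG

theorem far {K : Set E} (hK : IsCompact K) : Subsingleton E ∨ ∃ y, y ∉ K := by
  rcases subsingleton_or_nontrivial E with h | h
  · exact .inl h
  · have := NormedSpace.noncompactSpace ℝ E
    exact .inr ((ne_univ_iff_exists_notMem K).1 hK.ne_univ)

theorem fd_out {g : E → E} {K : Set E} (hK : IsClosed K) (h : ∀ x ∉ K, g x = x) {x : E}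
    (hx : x ∉ K) : fderiv ℝ g x = ContinuousLinearMap.id ℝ E := by
  have : g =ᶠ[𝓝 x] id := by
    filter_upwards [hK.isOpen_compl.mem_nhds hx] with y hy using h y hy
  rw [this.fderiv_eq, fderiv_id]

theorem fd_id {g : E → E} {K : Set E} (hK : IsCompact K) (h : ∀ x ∉ K, g x = x) :
    ∃ x, fderiv ℝ g x = ContinuousLinearMap.id ℝ E := by
  rcases far hK with h1 | ⟨x, hx⟩
  · exact ⟨0, ContinuousLinearMap.ext fun _ => Subsingleton.elim _ _⟩
  · exact ⟨x, fd_out hK.isClosed h hx⟩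

theorem slice_cd {F : Type} [NormedAddCommGroup F] [NormedSpace ℝ F] {G : P × E → F}
    (hG : ContDiff ℝ ∞ G) (p : P) : ContDiff ℝ ∞ fun x => G (p, x) :=
  hG.comp (contDiff_prodMk_right p)

theorem slice_fd {F : Type} [NormedAddCommGroup F] [NormedSpace ℝ F] {G : P × E → F}
    (hG : ContDiff ℝ ∞ G) (p : P) (x w : E) :
    fderiv ℝ (fun x => G (p, x)) x w = fderiv ℝ G (p, x) (0, w) := by
  have h := (hG.differentiable (by simp) (p, x)).hasFDerivAt.comp x
    (hasFDerivAt_prodMk_right (𝕜 := ℝ) p x)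
  exact congr($(h.fderiv) w)

omit [NormedSpace ℝ E] [NormedSpace ℝ P] in
theorem slice_cpt {K : Set (P × E)} (hK : IsCompact K) {g : E → E} {p : P}
    (h : ∀ x, (p, x) ∉ K → g x = x) : ∃ L, IsCompact L ∧ ∀ x ∉ L, g x = x :=
  ⟨_, hK.image continuous_snd, fun x hx => h x fun h1 => hx ⟨_, h1, rfl⟩⟩

variable [FiniteDimensional ℝ E]

theorem loc_eq {g : E → E} (hg : ContDiff ℝ ∞ g) {x : E} (hi : Injective (fderiv ℝ g x)) :
    ∃ A : E ≃L[ℝ] E, HasFDerivAt g (A : E →L[ℝ] E) x :=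
  ⟨(LinearEquiv.ofInjectiveEndo (fderiv ℝ g x).toLinearMap hi).toContinuousLinearEquiv,
    (hg.differentiable (by simp) x).hasFDerivAt.congr_fderiv
      (ContinuousLinearMap.ext fun _ => rfl)⟩

theorem bij_of {g : E → E} (hg : ContDiff ℝ ∞ g) (hi : ∀ x, Injective (fderiv ℝ g x))
    {K : Set E} (hK : IsCompact K) (h : ∀ x ∉ K, g x = x) : Bijective g := by
  have := FiniteDimensional.complete ℝ E
  have := FiniteDimensional.proper_real E
  choose A hA using fun x => loc_eq hg (hi x)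
  have hs : ∀ x, HasStrictFDerivAt g (A x : E →L[ℝ] E) x := fun x =>
    hg.contDiffAt.hasStrictFDerivAt' (hA x) (by simp)
  have ho : IsOpenMap g := isOpenMap_of_hasStrictFDerivAt_equiv hs
  have hc : IsClosedMap g := (isProperMap_iff_tendsto_cocompact.2 ⟨hg.continuous,
    tendsto_id.congr' (by
      filter_upwards [hK.compl_mem_cocompact] with y hy using (h y hy).symm)⟩).isClosedMap
  have hsu : Surjective g := range_eq_univ.1
    (IsClopen.eq_univ ⟨hc.isClosed_range, ho.isOpen_range⟩ (range_nonempty g))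
  refine ⟨?_, hsu⟩
  rcases far (hK.union (hK.image hg.continuous)) with h1 | ⟨y₀, hy₀⟩
  · exact fun _ _ _ => Subsingleton.elim _ _
  let T : Set E := {y | ∃ x x', x ≠ x' ∧ g x = y ∧ g x' = y}
  have h1 : IsOpen T := by
    refine isOpen_iff_mem_nhds.2 ?_
    rintro y ⟨x, x', hne, rfl, h2⟩
    obtain ⟨U, V, hU, hV, hx, hx', hd⟩ := t2_separation hne
    refine mem_of_superset (((ho U hU).inter (ho V hV)).mem_nhds ⟨⟨x, hx, rfl⟩, x', hx', h2⟩) ?_
    rintro z ⟨⟨a, ha, rfl⟩, b, hb, h3⟩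
    exact ⟨a, b, fun e => disjoint_left.1 hd ha (e ▸ hb), rfl, h3⟩
  have h2 : IsOpen Tᶜ := by
    refine isOpen_iff_mem_nhds.2 fun y hy => ?_
    obtain ⟨x, rfl⟩ := hsu y
    let e := (hs x).toOpenPartialHomeomorph g
    have h3 : g x ∈ (g '' e.sourceᶜ)ᶜ := by
      rintro ⟨a, ha, h4⟩
      exact hy ⟨a, x, fun e' => ha (e' ▸ (hs x).mem_toOpenPartialHomeomorph_source), h4, rfl⟩
    refine mem_of_superset ((hc _ e.open_source.isClosed_compl).isOpen_compl.mem_nhds h3) ?_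
    rintro z hz ⟨a, b, hne, rfl, h4⟩
    refine hne (e.injOn ?_ ?_ h4.symm)
    · by_contra h5
      exact hz ⟨a, h5, rfl⟩
    · by_contra h5
      exact hz ⟨b, h5, h4⟩
  have h3 : Tᶜ = univ := by
    refine IsClopen.eq_univ ⟨h1.isClosed_compl, h2⟩ ⟨y₀, ?_⟩
    have h4 : ∀ x, g x = y₀ → x = y₀ := fun x hx =>
      (h x fun h5 => hy₀ (.inr ⟨x, h5, hx⟩)).symm.trans hx
    rintro ⟨a, b, hne, ha, hb⟩
    exact hne ((h4 a ha).trans (h4 b hb).symm)
  intro a b hab
  by_contra hne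
  exact (h3.ge (mem_univ (g b))) ⟨a, b, hne, hab, rfl⟩

theorem inv_cd {g ψ : E → E} (hg : ContDiff ℝ ∞ g) (hi : ∀ x, Injective (fderiv ℝ g x))
    (h1 : LeftInverse ψ g) (h2 : RightInverse ψ g) : ContDiff ℝ ∞ ψ := by
  have := FiniteDimensional.complete ℝ E
  refine contDiff_iff_contDiffAt.2 fun y => ?_
  obtain ⟨A, hA⟩ := loc_eq hg (hi (ψ y))
  have h3 := hg.contDiffAt.to_localInverse hA (by simp)
  have h4 := (hg.contDiffAt.hasStrictFDerivAt' hA (by simp)).localInverse_unique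
    (Eventually.of_forall h1)
  rw [h2 y] at h3 h4
  exact h3.congr_of_eventuallyEq h4

theorem inv_fam [FiniteDimensional ℝ P] {g : P → E → E}
    (hg : ContDiff ℝ ∞ fun y : P × E => g y.1 y.2) (hi : ∀ p x, Injective (fderiv ℝ (g p) x))
    (hb : ∀ p, Bijective (g p)) : ∃ ψ : P → E → E, (ContDiff ℝ ∞ fun y : P × E => ψ y.1 y.2) ∧
      ∀ p, LeftInverse (ψ p) (g p) ∧ RightInverse (ψ p) (g p) := by
  choose ψ h1 using fun p => bijective_iff_has_inverse.1 (hb p)
  refine ⟨ψ, ?_, h1⟩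
  have h2 : ContDiff ℝ ∞ fun y : P × E => (y.1, g y.1 y.2) := contDiff_fst.prodMk hg
  refine (inv_cd (ψ := fun y : P × E => (y.1, ψ y.1 y.2)) h2 (fun y => ?_)
    (fun y => Prod.ext rfl ((h1 y.1).1 y.2)) fun y => Prod.ext rfl ((h1 y.1).2 y.2)).snd
  rw [((hasFDerivAt_fst (𝕜 := ℝ) (p := y)).prodMk
    (hg.differentiable (by simp) y).hasFDerivAt).fderiv, injective_iff_map_eq_zero]
  rintro ⟨v, w⟩ h3
  obtain rfl : v = 0 := congr(($h3).1)
  have h4 : fderiv ℝ (g y.1) y.2 w = 0 := (slice_fd hg y.1 y.2 w).trans congr(($h3).2)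
  rw [(injective_iff_map_eq_zero _).1 (hi y.1 y.2) w h4]
  rfl

end Pool.Agent.MP_630a92_gt.BC

end

section

/-! Paths of families indexed by the whole real line. -/

namespace Pool.Agent.MP_630a92_gt.BC

open Set Filter Topology Function Real
open scoped ContDiff

variable {E : Type} [NormedAddCommGroup E] [NormedSpace ℝ E]
  {P : Type} [NormedAddCommGroup P] [NormedSpace ℝ P] {C C' : (E → E) → Prop}
  {φ ψ χ : P → E → E} {H : ℝ → P → E → E}

/-- Smooth paths of families, indexed by all real times. -/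
def Pth (C : (E → E) → Prop) (H : ℝ → P → E → E) : Prop :=
  ContDiff ℝ ∞ (fun y : (ℝ × P) × E => H y.1.1 y.1.2 y.2) ∧ (∀ t u, C (H t u)) ∧
    ∃ K : Set (P × E), IsCompact K ∧ ∀ t, ∀ y ∉ K, H t y.1 y.2 = y.2

/-- Families joined by a path. -/
def Jn (C : (E → E) → Prop) (φ ψ : P → E → E) : Prop := ∃ H, Pth C H ∧ H 0 = φ ∧ H 1 = ψ

theorem Pth.cd (h : Pth C H) (t : ℝ) (u : P) : ContDiff ℝ ∞ (H t u) := slice_cd h.1 (t, u)

theorem Pth.cpt (h : Pth C H) (t : ℝ) (u : P) : ∃ L, IsCompact L ∧ ∀ x ∉ L, H t u x = x :=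
  let ⟨_, hK, h1⟩ := h.2.2
  slice_cpt hK fun x hx => h1 t (u, x) hx

theorem Pth.re (h : Pth C H) {r : ℝ → ℝ} (hr : ContDiff ℝ ∞ r) : Pth C fun t => H (r t) :=
  ⟨h.1.comp (f := fun y : (ℝ × P) × E => ((r y.1.1, y.1.2), y.2)) (by fun_prop),
    fun _ _ => h.2.1 _ _, let ⟨K, hK, h1⟩ := h.2.2; ⟨K, hK, fun _ => h1 _⟩⟩

theorem Pth.up (h : Pth C H) (h1 : ∀ t u, C' (H t u)) : Pth C' H := ⟨h.1, h1, h.2.2⟩

theorem Pth.fam (h : Pth C H) (t : ℝ) : Fam C (H t) :=
  ⟨h.1.comp (f := fun y : P × E => ((t, y.1), y.2)) (by fun_prop), h.2.1 t,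
    let ⟨K, hK, h1⟩ := h.2.2; ⟨K, hK, h1 t⟩⟩

theorem Fam.pth (h : Fam C φ) : Pth C fun _ => φ :=
  ⟨h.1.comp (f := fun y : (ℝ × P) × E => (y.1.2, y.2)) (by fun_prop), fun _ => h.2.1,
    let ⟨K, hK, h1⟩ := h.2.2; ⟨K, hK, fun _ => h1⟩⟩

theorem jn_iff : Homot C φ ψ ↔ Jn C φ ψ := by
  constructor
  · rintro ⟨H, h1, h2, h3, h4, K, hK, h5⟩
    have h6 : ∀ t, smoothTransition t ∈ Icc (0 : ℝ) 1 := fun t =>
      ⟨smoothTransition.nonneg t, smoothTransition.le_one t⟩
    have h7 : ContDiff ℝ ∞ smoothTransition := smoothTransition.contDiff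
    refine ⟨fun t => H (smoothTransition t), ⟨?_, fun t => h4 _ (h6 t), K, hK,
      fun t => h5 _ (h6 t)⟩, by simpa using h2, by simpa using h3⟩
    exact h1.comp_contDiff (f := fun y : (ℝ × P) × E => (smoothTransition y.1.1, y.1.2, y.2))
      (by fun_prop) fun y => ⟨h6 _, mem_univ _⟩
  · rintro ⟨H, ⟨h1, h2, K, hK, h3⟩, h4, h5⟩
    exact ⟨H, (h1.comp (f := fun y : ℝ × P × E => ((y.1, y.2.1), y.2.2))
      (by fun_prop)).contDiffOn, h4, h5, fun t _ => h2 t, K, hK, fun t _ => h3 t⟩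

theorem Pth.jn (h : Pth C H) (h1 : ∀ t ∈ Icc (0 : ℝ) 1, ∀ u, C' (H t u)) : Jn C' (H 0) (H 1) :=
  jn_iff.1 ⟨H, (h.1.comp (f := fun y : ℝ × P × E => ((y.1, y.2.1), y.2.2))
    (by fun_prop)).contDiffOn, rfl, rfl, h1, let ⟨K, hK, h2⟩ := h.2.2; ⟨K, hK, fun t _ => h2 t⟩⟩

theorem Jn.symm (h : Jn C φ ψ) : Jn C ψ φ :=
  let ⟨H, h1, h2, h3⟩ := h
  ⟨fun t => H (1 - t), h1.re (by fun_prop), by simpa using h3, by simpa using h2⟩

theorem Jn.trans (h : Jn C φ ψ) (h' : Jn C ψ χ) : Jn C φ χ := by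
  obtain ⟨H, h1, h2, h3⟩ := h
  obtain ⟨G, g1, g2, g3⟩ := h'
  have h7 : ContDiff ℝ ∞ smoothTransition := smoothTransition.contDiff
  have h4 := h1.re (r := fun t => smoothTransition (3 * t)) (by fun_prop)
  have g4 := g1.re (r := fun t => smoothTransition (3 * t - 2)) (by fun_prop)
  have e : ∀ t : ℝ, 1 / 3 < t → t < 2 / 3 →
      H (smoothTransition (3 * t)) = G (smoothTransition (3 * t - 2)) := fun t a b => by
    rw [smoothTransition.one_of_one_le (by linarith),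
      smoothTransition.zero_of_nonpos (by linarith), h3, g2]
  obtain ⟨K, hK, h5⟩ := h1.2.2
  obtain ⟨L, hL, g5⟩ := g1.2.2
  refine ⟨fun t => if t ≤ 1 / 2 then H (smoothTransition (3 * t))
    else G (smoothTransition (3 * t - 2)), ⟨contDiff_iff_contDiffAt.2 fun y => ?_, fun t u => ?_,
      K ∪ L, hK.union hL, fun t y hy => ?_⟩, ?_, ?_⟩
  · have hc : Continuous fun y : (ℝ × P) × E => y.1.1 := by fun_prop
    rcases lt_or_ge y.1.1 (2 / 3) with h6 | h6
    · refine h4.1.contDiffAt.congr_of_eventuallyEq ?_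
      filter_upwards [hc.continuousAt.eventually_lt continuousAt_const h6] with z hz
      split_ifs with h8
      · rfl
      · rw [e _ (by linarith) hz]
    · refine g4.1.contDiffAt.congr_of_eventuallyEq ?_
      filter_upwards [continuousAt_const.eventually_lt hc.continuousAt
        (show (1 / 3 : ℝ) < y.1.1 by linarith)] with z hz
      split_ifs with h8
      · rw [e _ hz (by linarith)]
      · rfl
  · dsimp only
    split_ifs
    exacts [h1.2.1 _ _, g1.2.1 _ _]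
  · dsimp only
    split_ifs
    exacts [h5 _ _ fun a => hy (.inl a), g5 _ _ fun a => hy (.inr a)]
  · simpa using h2
  · have : ¬(1 : ℝ) ≤ 1 / 2 := by norm_num
    simp only [this, if_false]
    rw [smoothTransition.one_of_one_le (by norm_num), g3]

end Pool.Agent.MP_630a92_gt.BC

end

section

/-! Principal minors. -/

namespace Pool.Agent.MP_630a92_gt.BC

open Matrix Function

variable {k : ℕ} {M M' : Matrix (Fin k) (Fin k) ℝ}

/-- Interpolated determinant. -/
def dd (M : Matrix (Fin k) (Fin k) ℝ) (c : Fin k → ℝ) : ℝ := (1 + diagonal c * (M - 1)).det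

/-- Indicator vector. -/
def ind (S : Fin k → Prop) [DecidablePred S] : Fin k → ℝ := fun i => if S i then 1 else 0

/-- Kernel form of the invertibility of a principal block. -/
def KerC (S : Fin k → Prop) (M : Matrix (Fin k) (Fin k) ℝ) : Prop :=
  ∀ w : Fin k → ℝ, (∀ i, ¬S i → w i = 0) → (∀ i, S i → (M *ᵥ w) i = 0) → w = 0

variable {S : Fin k → Prop} [DecidablePred S]

theorem dd_ind : dd M (ind S) = (M.toSquareBlockProp S).det := by
  rw [dd, twoBlockTriangular_det _ S]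
  · have h1 : toSquareBlockProp (1 + diagonal (ind S) * (M - 1)) S = toSquareBlockProp M S := by
      ext i j
      simp [toSquareBlockProp_def, diagonal_mul, ind, i.2]
    have h2 : toSquareBlockProp (1 + diagonal (ind S) * (M - 1)) (fun i => ¬S i) = 1 := by
      ext i j
      simp [toSquareBlockProp_def, diagonal_mul, ind, i.2, one_apply, Subtype.ext_iff]
    rw [h1, h2, det_one, mul_one]
  · intro i hi j hj
    have : i ≠ j := fun e => hi (e ▸ hj)
    simp [diagonal_mul, ind, hi, this]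

theorem dd_ker : dd M (ind S) ≠ 0 ↔ KerC S M := by
  have h1 : ∀ (w : Fin k → ℝ) i, ((1 + diagonal (ind S) * (M - 1)) *ᵥ w) i =
      if S i then (M *ᵥ w) i else w i := fun w i => by
    rw [add_mulVec, ← mulVec_mulVec, sub_mulVec, one_mulVec, Pi.add_apply, mulVec_diagonal]
    by_cases h : S i <;> simp [ind, h]
  rw [dd, Ne, ← exists_mulVec_eq_zero_iff]
  constructor
  · intro h w h2 h3
    by_contra h4
    refine h ⟨w, h4, funext fun i => ?_⟩
    rw [h1]
    split_ifs with h5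
    exacts [h3 i h5, h2 i h5]
  · rintro h ⟨w, h2, h3⟩
    refine h2 (h w (fun i hi => ?_) fun i hi => ?_)
    · simpa [h1, hi] using congrFun h3 i
    · simpa [h1, hi] using congrFun h3 i

omit [DecidablePred S] in
theorem ker_inv {T : Fin k → Prop} (hT : ∀ i, T i ↔ ¬S i) (h : M' * M = 1) (hS : KerC S M) :
    KerC T M' := by
  intro v h1 h2
  have h3 : M *ᵥ (M' *ᵥ v) = v := by rw [mulVec_mulVec, mul_eq_one_comm.1 h, one_mulVec]
  have h4 := hS (M' *ᵥ v) (fun i hi => h2 i ((hT i).2 hi)) fun i hi => by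
    rw [h3]
    exact h1 i fun a => (hT i).1 a hi
  rw [← h3, h4, mulVec_zero]

theorem dd_scale (L c : Fin k → ℝ) :
    dd (1 + diagonal L * (M - 1) * diagonal L) c = dd M fun i => c i * L i ^ 2 := by
  rw [dd, dd, add_sub_cancel_left, ← Matrix.mul_assoc, det_one_add_mul_comm, ← Matrix.mul_assoc,
    ← Matrix.mul_assoc, diagonal_mul_diagonal, diagonal_mul_diagonal]
  congr 4
  ext i
  ring

theorem dd_aff (c : Fin k → ℝ) (j : Fin k) (s : ℝ) :
    dd M (update c j s) = (1 - s) * dd M (update c j 0) + s * dd M (update c j 1) := by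
  have h1 : ∀ s : ℝ, 1 + diagonal (update c j s) * (M - 1) = updateRow (1 + diagonal c * (M - 1)) j
      ((1 : Matrix (Fin k) (Fin k) ℝ) j + s • (M - 1) j) := fun s => by
    ext a b
    by_cases h : a = j
    · subst h
      simp [diagonal_mul]
    · simp [diagonal_mul, h]
  simp only [dd, h1, det_updateRow_add, det_updateRow_smul]
  ring

theorem dd_one (c : Fin k → ℝ) : dd 1 c = 1 := by simp [dd]

theorem dd_zero : dd M 0 = 1 := by
  rw [dd, show diagonal (0 : Fin k → ℝ) = 0 from diagonal_zero]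
  simp

theorem dd_cont {X : Type} [TopologicalSpace X] {N : X → Matrix (Fin k) (Fin k) ℝ}
    {c : X → Fin k → ℝ} (hN : Continuous N) (hc : Continuous c) :
    Continuous fun x => dd (N x) (c x) :=
  (continuous_const.add (hc.matrix_diagonal.matrix_mul (hN.sub continuous_const))).matrix_det

/-- The indicator of the trailing indices. -/
def tr (r : ℕ) : Fin k → ℝ := ind fun i => ¬i.val < r

theorem dd_stair (h : ∀ r, 0 < dd M (tr r)) {L : Fin k → ℝ} {j : ℕ}
    (h0 : ∀ i, i.val < j → L i = 0) (h1 : ∀ i, j < i.val → L i = 1) (h2 : ∀ i, 0 ≤ L i ∧ L i ≤ 1)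
    (r : ℕ) : 0 < dd M fun i => tr r i * L i ^ 2 := by
  by_cases a : j < r
  · refine (h r).trans_eq (congrArg _ (funext fun i => ?_))
    by_cases b : i.val < r
    · simp [tr, ind, b]
    · simp [h1 i (by omega)]
  by_cases b : k ≤ j
  · refine (h j).trans_eq (congrArg _ (funext fun i => ?_))
    have c : i.val < j := by omega
    simp [tr, ind, c, h0 i c]
  obtain ⟨i₀, rfl⟩ : ∃ i₀ : Fin k, i₀.val = j := ⟨⟨j, by omega⟩, rfl⟩
  have e1 : (fun i => tr r i * L i ^ 2) = update (tr i₀.val) i₀ (L i₀ ^ 2) := funext fun i => by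
    rcases lt_trichotomy i i₀ with c | rfl | c
    · simp [c.ne, tr, ind, h0 i c, c]
    · have : ¬i.val < r := by omega
      simp [tr, ind, this]
    · have c' : i₀.val < i.val := c
      have : ¬i.val < r := by omega
      simp [c.ne', tr, ind, h1 i c, this, c.le]
  have e2 : update (tr i₀.val) i₀ 1 = tr (k := k) i₀.val := by
    rw [update_eq_self_iff]
    simp [tr, ind]
  have e3 : update (tr i₀.val) i₀ 0 = tr (k := k) (i₀.val + 1) := funext fun i => by
    rcases lt_trichotomy i i₀ with c | rfl | c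
    · have c' : i.val < i₀.val := c
      have : i.val < i₀.val + 1 := by omega
      simp [c.ne, tr, ind, c, this]
    · simp [tr, ind]
    · have c' : i₀.val < i.val := c
      have : ¬i.val < i₀.val + 1 := by omega
      simp [c.ne', tr, ind, this, c.le]
  rw [e1, dd_aff, e2, e3]
  have a1 := h (i₀.val + 1)
  have a2 := h i₀.val
  have a3 : L i₀ ^ 2 ≤ 1 := pow_le_one₀ (h2 i₀).1 (h2 i₀).2
  have a4 := sq_nonneg (L i₀)
  rcases le_total (dd M (tr (i₀.val + 1))) (dd M (tr i₀.val)) with c | c <;> nlinarith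

end Pool.Agent.MP_630a92_gt.BC

end

section

/-! The exchange of the source and target momenta. -/

namespace Pool.Agent.MP_630a92_gt.BC

open Set Filter Topology Function Matrix
open scoped ContDiff

variable {m k : ℕ}

/-- The total space. -/
abbrev EE (m k : ℕ) : Type := R2 m × R2 k

variable {g g' g'' : EE m k → EE m k}

/-- The change of coordinates `(z, q, p) ↦ (z, q, P)`. -/
def th (g : EE m k → EE m k) (x : EE m k) : EE m k := (x.1, x.2.1, (g x).2.2)

/-- `g'` sends `(z, q, P)` to `(Z, Q, p)`. -/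
def Ex (g g' : EE m k → EE m k) : Prop :=
  (∀ x, g' (th g x) = ((g x).1, (g x).2.1, x.2.2)) ∧ Surjective (th g)

theorem Ex.back (h : Ex g g') (x : EE m k) : th g' (th g x) = x := by
  rw [th, h.1]
  rfl

theorem Ex.symm (h : Ex g g') : Ex g' g := by
  refine ⟨fun y => ?_, fun x => ⟨_, h.back x⟩⟩
  obtain ⟨x, rfl⟩ := h.2 y
  rw [h.back, h.1]
  rfl

theorem Ex.uniq (h : Ex g g') (h' : Ex g g'') : g' = g'' := funext fun y => by
  obtain ⟨x, rfl⟩ := h.2 y
  rw [h.1, h'.1]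

theorem th_fd (hg : Differentiable ℝ g) (x : EE m k) : ∃ A : EE m k →L[ℝ] EE m k,
    HasFDerivAt (th g) A x ∧ ∀ u, A u = th (fderiv ℝ g x) u :=
  ⟨_, hasFDerivAt_fst.prodMk (hasFDerivAt_snd.fst.prodMk (hg x).hasFDerivAt.snd.snd),
    fun _ => rfl⟩

theorem Ex.fd1 (h : Ex g g') (hg : Differentiable ℝ g) (hg' : Differentiable ℝ g')
    (x u : EE m k) : fderiv ℝ g' (th g x) (th (fderiv ℝ g x) u) =
      ((fderiv ℝ g x u).1, (fderiv ℝ g x u).2.1, u.2.2) := by
  obtain ⟨A, h1, h2⟩ := th_fd hg x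
  have h3 := (hg' _).hasFDerivAt.comp x h1
  rw [show g' ∘ th g = _ from funext h.1] at h3
  have h4 := h3.unique ((hg x).hasFDerivAt.fst.prodMk
    ((hg x).hasFDerivAt.snd.fst.prodMk hasFDerivAt_snd.snd))
  rw [← h2]
  exact congr($h4 u)

theorem Ex.fd (h : Ex g g') (hg : Differentiable ℝ g) (hg' : Differentiable ℝ g')
    (x : EE m k) : Ex (fderiv ℝ g x) (fderiv ℝ g' (th g x)) := by
  refine ⟨h.fd1 hg hg' x, fun u => ⟨th (fderiv ℝ g' (th g x)) u, ?_⟩⟩
  have h1 := h.symm.fd1 hg' hg (th g x) u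
  rw [h.back] at h1
  rw [th, h1]
  rfl

/-- Preservation of the form. -/
def Sp (A : EE m k → EE m k) : Prop := ∀ u v, omP (A u) (A v) = omP u v

/-- The Lagrangian condition in mixed coordinates. -/
def Lg (A : EE m k → EE m k) : Prop := ∀ u v,
  om (A u).1 (A v).1 + om ((A u).2.1, u.2.2) ((A v).2.1, v.2.2) =
    om u.1 v.1 + om (u.2.1, (A u).2.2) (v.2.1, (A v).2.2)

theorem Ex.lg (h : Ex g g') (h1 : Sp g) : Lg g' := by
  intro u v
  obtain ⟨u, rfl⟩ := h.2 u
  obtain ⟨v, rfl⟩ := h.2 v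
  rw [h.1, h.1]
  exact h1 u v

theorem Ex.sp (h : Ex g g') (h1 : Lg g') : Sp g := by
  intro u v
  have h2 := h1 (th g u) (th g v)
  rw [h.1, h.1] at h2
  exact h2

/-- The momentum block of a linear map. -/
def blk (A : EE m k →L[ℝ] EE m k) : Matrix (Fin k) (Fin k) ℝ :=
  Matrix.of fun i j => (A (0, 0, Pi.single j 1)).2.2 i

theorem blk_mul (A : EE m k →L[ℝ] EE m k) (w : Fin k → ℝ) : blk A *ᵥ w = (A (0, 0, w)).2.2 := by
  have h : ((0, 0, w) : EE m k) = ∑ j, w j • ((0, 0, Pi.single j 1) : EE m k) := by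
    refine Prod.ext (by simp [Prod.fst_sum]) (Prod.ext (by simp [Prod.fst_sum, Prod.snd_sum]) ?_)
    ext i
    simp [Prod.snd_sum, Pi.single_apply]
  rw [h, map_sum]
  ext i
  simp only [map_smul, Prod.snd_sum, Finset.sum_apply, Prod.smul_snd, Pi.smul_apply, smul_eq_mul,
    mulVec, dotProduct, blk, of_apply, mul_comm]

theorem Ex.blk {A A' : EE m k →L[ℝ] EE m k} (h : Ex A A') : blk A' * blk A = 1 := by
  refine ext_of_mulVec_single fun j => ?_
  rw [← mulVec_mulVec, blk_mul, blk_mul, one_mulVec]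
  exact congr(($(h.1 (0, 0, Pi.single j 1))).2.2)

theorem blk_id : blk (ContinuousLinearMap.id ℝ (EE m k)) = 1 := by
  refine ext_of_mulVec_single fun j => ?_
  rw [blk_mul, one_mulVec]
  rfl

theorem om_nd {n : ℕ} {u : R2 n} (h : ∀ v, om u v = 0) : u = 0 := by
  have h1 := h (-u.2, u.1)
  simp only [om, dotProduct_neg, sub_neg_eq_add] at h1
  have h2 : 0 ≤ u.1 ⬝ᵥ u.1 := Finset.sum_nonneg fun i _ => mul_self_nonneg _
  have h3 : 0 ≤ u.2 ⬝ᵥ u.2 := Finset.sum_nonneg fun i _ => mul_self_nonneg _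
  exact Prod.ext (dotProduct_self_eq_zero.1 (by linarith)) (dotProduct_self_eq_zero.1 (by linarith))

theorem om_inj {n : ℕ} {A : R2 n →L[ℝ] R2 n} (h : ∀ u v, om (A u) (A v) = om u v) :
    Injective A := by
  refine (injective_iff_map_eq_zero _).2 fun u hu => om_nd fun v => ?_
  rw [← h, hu]
  simp [om]

theorem sp_inj {A : EE m k →L[ℝ] EE m k} (h : Sp A) : Injective A := by
  refine (injective_iff_map_eq_zero _).2 fun u hu => ?_
  have h1 : ∀ v, omP u v = 0 := fun v => by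
    rw [← h, hu]
    simp [omP, om]
  refine Prod.ext (om_nd fun v => ?_) (om_nd fun v => ?_)
  · simpa [omP, om] using h1 (v, 0)
  · simpa [omP, om] using h1 (0, v)

theorem symp_of {E : Type} [NormedAddCommGroup E] [NormedSpace ℝ E] [FiniteDimensional ℝ E]
    {B : E → E → ℝ} {f : E → E} (hf : ContDiff ℝ ∞ f) (hi : ∀ x, Injective (fderiv ℝ f x))
    (hK : ∃ L, IsCompact L ∧ ∀ x ∉ L, f x = x)
    (h : ∀ x u v, B (fderiv ℝ f x u) (fderiv ℝ f x v) = B u v) : IsSymp B f := by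
  obtain ⟨K, hK, h1⟩ := hK
  obtain ⟨ψ, h2, h3⟩ := bijective_iff_has_inverse.1 (bij_of hf hi hK h1)
  exact ⟨hf, ⟨ψ, inv_cd hf hi h2 h3, h2, h3⟩, h⟩

/-- Mixed maps that satisfy the Lagrangian condition. -/
def Lag (g : EE m k → EE m k) : Prop := ∀ x, Lg (fderiv ℝ g x)

/-- Mixed maps whose trailing minors vanish nowhere. -/
def LTr (g : EE m k → EE m k) : Prop :=
  Lag g ∧ ∀ x r, dd (blk (fderiv ℝ g x)) (tr r) ≠ 0

/-- The momentum block is invertible everywhere. -/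
def Inv (g : EE m k → EE m k) : Prop := ∀ x w, blk (fderiv ℝ g x) *ᵥ w = 0 → w = 0

theorem Cell.ker (h : Cell g) (x : EE m k) (r : ℕ) :
    KerC (fun i => i.val < r) (blk (fderiv ℝ g x)) := dd_ker.1 (dd_ind.trans_ne (h.2 x r))

theorem Cell.inv (h : Cell g) : Inv g := fun x w hw =>
  h.ker x k w (fun i hi => (hi i.2).elim) fun i _ => congrFun hw i

theorem LTr.inv (h : LTr g) : Inv g := fun x w hw =>
  dd_ker.1 (h.2 x 0) w (fun i hi => (hi i.val.not_lt_zero).elim) fun i _ => congrFun hw i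

theorem Ex.ltr (h : Ex g g') (hg' : ContDiff ℝ ∞ g') (h1 : Cell g) : LTr g' := by
  have h2 := h.fd (h1.1.1.differentiable (by simp)) (hg'.differentiable (by simp))
  refine ⟨fun y => ?_, fun y r => ?_⟩ <;> obtain ⟨x, rfl⟩ := h.2 y
  · exact (h2 x).lg (h1.1.2.2 x)
  · exact dd_ker.2 (ker_inv (fun _ => Iff.rfl) (h2 x).blk (h1.ker x r))

theorem Ex.cell (h : Ex g g') (hg : ContDiff ℝ ∞ g) (hg' : ContDiff ℝ ∞ g')
    (hK : ∃ L, IsCompact L ∧ ∀ x ∉ L, g x = x) (h1 : LTr g') : Cell g := by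
  have h2 := h.fd (hg.differentiable (by simp)) (hg'.differentiable (by simp))
  have h3 : ∀ x, Sp (fderiv ℝ g x) := fun x => (h2 x).sp (h1.1 _)
  refine ⟨symp_of hg (fun x => sp_inj (h3 x)) hK h3, fun x r => ?_⟩
  exact dd_ind.symm.trans_ne (dd_ker.2
    (ker_inv (fun _ => not_not.symm) (h2 x).symm.blk (dd_ker.1 (h1.2 _ r))))

variable {U : Type} [NormedAddCommGroup U] [NormedSpace ℝ U] [FiniteDimensional ℝ U]
  {C : (EE m k → EE m k) → Prop} {H : ℝ → U → EE m k → EE m k}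

theorem ex_pth (h : Pth C H) (hi : ∀ t u, Inv (H t u)) :
    ∃ G, Pth (fun _ => True) G ∧ ∀ t u, Ex (H t u) (G t u) := by
  have h1 : ContDiff ℝ ∞ fun y : (ℝ × U) × EE m k => th (H y.1.1 y.1.2) y.2 :=
    contDiff_snd.fst.prodMk (contDiff_snd.snd.fst.prodMk h.1.snd.snd)
  have h2 : ∀ (p : ℝ × U) x, Injective (fderiv ℝ (th (H p.1 p.2)) x) := fun p x => by
    obtain ⟨A, h3, h4⟩ := th_fd ((h.cd p.1 p.2).differentiable (by simp)) x
    rw [h3.fderiv, injective_iff_map_eq_zero]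
    rintro ⟨z, q, w⟩ h5
    rw [h4] at h5
    obtain rfl : z = 0 := congr(($h5).1)
    obtain rfl : q = 0 := congr(($h5).2.1)
    rw [hi p.1 p.2 x w ((blk_mul _ _).trans congr(($h5).2.2))]
    rfl
  obtain ⟨K, hK, h3⟩ := h.2.2
  have h4 : ∀ t (y : U × EE m k), y ∉ K → th (H t y.1) y.2 = y.2 := fun t y hy => by
    rw [th, h3 t y hy]
  obtain ⟨ψ, h5, h6⟩ := inv_fam (g := fun p : ℝ × U => th (H p.1 p.2)) h1 h2 fun p => by
    obtain ⟨L, hL, h7⟩ := slice_cpt (g := th (H p.1 p.2)) hK fun x hx => h4 p.1 (p.2, x) hx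
    exact bij_of (slice_cd h1 p) (h2 p) hL h7
  have h7 := h.1.comp (contDiff_fst.prodMk h5)
  refine ⟨fun t u x => ((H t u (ψ (t, u) x)).1, (H t u (ψ (t, u) x)).2.1, (ψ (t, u) x).2.2),
    ⟨h7.fst.prodMk (h7.snd.fst.prodMk h5.snd.snd), fun _ _ => trivial, K, hK, fun t y hy => ?_⟩,
    fun t u => ⟨fun x => ?_, (h6 (t, u)).2.surjective⟩⟩
  · have h8 : ψ (t, y.1) y.2 = y.2 := by
      conv_lhs => rw [← h4 t y hy]
      exact (h6 (t, y.1)).1 y.2
    simp only [h8, h3 t y hy]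
  · simp only [(h6 (t, u)).1 x]

theorem ex_cell (h : Pth Cell H) : ∃ G, Pth LTr G ∧ ∀ t u, Ex (H t u) (G t u) :=
  let ⟨G, h1, h2⟩ := ex_pth h fun t u => (h.2.1 t u).inv
  ⟨G, h1.up fun t u => (h2 t u).ltr (h1.cd t u) (h.2.1 t u), h2⟩

theorem ex_ltr (h : Pth LTr H) : ∃ G, Pth Cell G ∧ ∀ t u, Ex (G t u) (H t u) :=
  let ⟨G, h1, h2⟩ := ex_pth h fun t u => (h.2.1 t u).inv
  ⟨G, h1.up fun t u => (h2 t u).symm.cell (h1.cd t u) (h.cd t u) (h1.cpt t u) (h.2.1 t u),
    fun t u => (h2 t u).symm⟩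

/-- The first component of a family of mixed maps. -/
def fs {U : Type} (μ : U → EE m k → EE m k) (w : U × R2 k) (z : R2 m) : R2 m :=
  (μ w.1 (z, w.2)).1

omit [FiniteDimensional ℝ U] in
theorem fs_pth (h : Pth Lag H) : Pth (IsSymp om) fun t => fs (H t) := by
  obtain ⟨K, hK, h3⟩ := h.2.2
  have h1 : Pth (fun _ => True) fun t => fs (H t) :=
    ⟨(h.1.comp (f := fun y : (ℝ × U × R2 k) × R2 m => ((y.1.1, y.1.2.1), y.2, y.1.2.2))
      (by fun_prop)).fst, fun _ _ => trivial,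
      _, hK.image (f := fun y => ((y.1, y.2.2), y.2.1)) (by fun_prop), fun t y hy =>
        congr(($(h3 t (y.1.1, y.2, y.1.2) fun a => hy ⟨_, a, rfl⟩)).1)⟩
  refine h1.up fun t w => ?_
  have h2 : ∀ z u v, om (fderiv ℝ (fs (H t) w) z u) (fderiv ℝ (fs (H t) w) z v) = om u v := by
    intro z u v
    have h4 := (((h.cd t w.1).differentiable (by simp) (z, w.2)).hasFDerivAt.comp z
      (hasFDerivAt_prodMk_left (𝕜 := ℝ) z w.2)).fst
    rw [show fderiv ℝ (fs (H t) w) z = _ from h4.fderiv]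
    simpa [om] using h.2.1 t w.1 (z, w.2) (u, 0) (v, 0)
  exact symp_of (h1.cd t w) (fun z => om_inj (h2 z)) (h1.cpt t w) h2

theorem red_iff {U : Type} {φ μ : U → EE m k → EE m k} (h : ∀ u, Ex (φ u) (μ u))
    {F : U × R2 k → R2 m → R2 m} : Red φ F ↔ F = fs μ := by
  constructor
  · intro h1
    ext1 ⟨u, w⟩
    ext1 z
    obtain ⟨x, hx⟩ := (h u).2 (z, w)
    have h2 := h1 u x
    have h3 := (h u).1 x
    rw [hx] at h3
    obtain rfl : x.1 = z := congr(($hx).1)
    obtain rfl : (x.2.1, (φ u x).2.2) = w := congr(($hx).2)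
    rw [h2, fs, h3]
  · rintro rfl u x
    exact congr(($((h u).1 x)).1)

end Pool.Agent.MP_630a92_gt.BC

end

section

/-! Anisotropic scaling of mixed maps. -/

namespace Pool.Agent.MP_630a92_gt.BC

open Set Filter Topology Function Matrix Real
open scoped ContDiff

variable {m k : ℕ} {g : EE m k → EE m k}

/-- Scaling of the second factor. -/
def sx (L : Fin k → ℝ) (x : EE m k) : EE m k := (x.1, L * x.2.1, L * x.2.2)

/-- The scaled mixed map. -/
def sc (L : Fin k → ℝ) (g : EE m k → EE m k) (x : EE m k) : EE m k :=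
  ((g (sx L x)).1, x.2.1 + L * ((g (sx L x)).2.1 - L * x.2.1),
    x.2.2 + L * ((g (sx L x)).2.2 - L * x.2.2))

theorem sc_one : sc 1 g = g := by
  ext1 x
  simp [sc, sx]

theorem sc_fd (hg : Differentiable ℝ g) (L : Fin k → ℝ) (x u : EE m k) :
    fderiv ℝ (sc L g) x u = sc L (fderiv ℝ g (sx L x)) u := by
  have a1 := (hasFDerivAt_snd (𝕜 := ℝ) (p := x)).fst.const_mul L
  have a2 := (hasFDerivAt_snd (𝕜 := ℝ) (p := x)).snd.const_mul L
  have h1 := (hg (sx L x)).hasFDerivAt.comp x (hasFDerivAt_fst.prodMk (a1.prodMk a2))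
  have h2 := h1.fst.prodMk ((hasFDerivAt_snd.fst.add ((h1.snd.fst.sub a1).const_mul L)).prodMk
    (hasFDerivAt_snd.snd.add ((h1.snd.snd.sub a2).const_mul L)))
  exact congr($(h2.fderiv) u)

theorem dot_mul (L a b : Fin k → ℝ) : (L * a) ⬝ᵥ b = a ⬝ᵥ (L * b) :=
  Finset.sum_congr rfl fun i _ => by simp only [Pi.mul_apply]; ring

theorem Lg.sc (h : Lg g) (L : Fin k → ℝ) : Lg (sc L g) := by
  intro u v
  have h1 := h (sx L u) (sx L v)
  simp only [BC.sc, sx, om, add_dotProduct, dotProduct_add, dot_mul, mul_sub, sub_dotProduct,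
    dotProduct_sub] at h1 ⊢
  linarith

theorem Lag.sc (h : Lag g) (hg : Differentiable ℝ g) (L : Fin k → ℝ) : Lag (sc L g) := fun x => by
  rw [show ⇑(fderiv ℝ (BC.sc L g) x) = _ from funext (sc_fd hg L x)]
  exact (h _).sc L

theorem sc_blk (hg : Differentiable ℝ g) (L : Fin k → ℝ) (x : EE m k) :
    blk (fderiv ℝ (sc L g) x) =
      1 + diagonal L * (blk (fderiv ℝ g (sx L x)) - 1) * diagonal L := by
  refine ext_of_mulVec_single fun j => ?_
  have h1 : ∀ w, diagonal L *ᵥ w = L * w := fun w => funext fun i => mulVec_diagonal L w i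
  rw [blk_mul, sc_fd hg, add_mulVec, ← mulVec_mulVec, ← mulVec_mulVec, sub_mulVec, blk_mul, h1, h1,
    one_mulVec, one_mulVec]
  simp [sc, sx]

variable {U : Type} [NormedAddCommGroup U] [NormedSpace ℝ U]
  {H : ℝ → U → EE m k → EE m k} {L : ℝ → Fin k → ℝ}

theorem sc_pth (h : Pth Lag H) (hL : ContDiff ℝ ∞ L) {e : ℝ} (he : 0 < e)
    (h1 : ∀ t i, e ≤ L t i) : Pth Lag fun t u => sc (L t) (H t u) := by
  obtain ⟨K, hK, h2⟩ := h.2.2
  have a0 : ContDiff ℝ ∞ fun y : (ℝ × U) × EE m k => L y.1.1 := hL.comp (by fun_prop)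
  have a1 : ContDiff ℝ ∞ fun y : (ℝ × U) × EE m k => L y.1.1 * y.2.2.1 := a0.mul (by fun_prop)
  have a2 : ContDiff ℝ ∞ fun y : (ℝ × U) × EE m k => L y.1.1 * y.2.2.2 := a0.mul (by fun_prop)
  have a3 := h.1.comp (contDiff_fst.prodMk (contDiff_snd.fst.prodMk (a1.prodMk a2)))
  refine ⟨a3.fst.prodMk ((contDiff_snd.snd.fst.add (a0.mul (a3.snd.fst.sub a1))).prodMk
    (contDiff_snd.snd.snd.add (a0.mul (a3.snd.snd.sub a2)))),
    fun t u => (h.2.1 t u).sc ((h.cd t u).differentiable (by simp)) _,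
    _, ((isCompact_Icc (a := (0 : Fin k → ℝ)) (b := fun _ => e⁻¹)).prod hK).image
      (f := fun y => (y.2.1, sx y.1 y.2.2)) (by unfold sx; fun_prop), fun t y hy => ?_⟩
  have h3 : ∀ i, 0 < L t i := fun i => he.trans_le (h1 t i)
  have h4 : ∀ w : Fin k → ℝ, (L t)⁻¹ * (L t * w) = w := fun w => funext fun i =>
    inv_mul_cancel_left₀ (h3 i).ne' _
  have h5 := h2 t (y.1, sx (L t) y.2) fun a => hy ⟨((L t)⁻¹, y.1, sx (L t) y.2),
    ⟨⟨fun i => (inv_pos.2 (h3 i)).le, fun i => inv_anti₀ he (h1 t i)⟩, a⟩, by simp [sx, h4]⟩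
  simp only [sc, h5]
  simp [sx]

theorem blk_cont (h : Pth Lag H) :
    Continuous fun y : (ℝ × U) × EE m k => blk (fderiv ℝ (H y.1.1 y.1.2) y.2) := by
  have h1 : ContDiff ℝ 0 fun y : (ℝ × U) × EE m k => fderiv ℝ (H y.1.1 y.1.2) y.2 :=
    ContDiff.fderiv (f := fun (y : (ℝ × U) × EE m k) => H y.1.1 y.1.2)
      (h.1.comp (f := fun y : ((ℝ × U) × EE m k) × EE m k => (y.1.1, y.2)) (by fun_prop))
      contDiff_snd (by simp)
  refine continuous_matrix fun i j => ?_
  exact (continuous_apply i).comp (h1.continuous.clm_apply continuous_const).snd.snd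

theorem sc_jn (h : Pth Lag H) (hL : ContDiff ℝ ∞ L) (h0 : ∀ t i, 0 ≤ L t i)
    (h1 : ∀ t u x r, dd (blk (fderiv ℝ (H t u) x)) (fun i => tr r i * L t i ^ 2) ≠ 0) :
    ∀ᶠ e in 𝓝[>] (0 : ℝ), Jn LTr (fun u => sc (fun i => e + (1 - e) * L 0 i) (H 0 u))
      fun u => sc (fun i => e + (1 - e) * L 1 i) (H 1 u) := by
  obtain ⟨K, hK, h2⟩ := h.2.2
  have h3 : ∀ r : Fin (k + 1), ∀ᶠ e in 𝓝 (0 : ℝ), ∀ y ∈ Icc (0 : ℝ) 1 ×ˢ K,
      dd (blk (fderiv ℝ (H y.1 y.2.1) y.2.2))
        (fun i => tr r i * (e + (1 - e) * L y.1 i) ^ 2) ≠ 0 := fun r => by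
    refine (isCompact_Icc.prod hK).eventually_forall_of_forall_eventually fun y _ => ?_
    have c1 := hL.continuous
    refine ContinuousAt.eventually_ne (dd_cont ((blk_cont h).comp
      (f := fun z : ℝ × ℝ × U × EE m k => ((z.2.1, z.2.2.1), z.2.2.2)) (by fun_prop))
      (by fun_prop)).continuousAt ?_
    simpa using h1 y.1 y.2.1 y.2.2 r
  filter_upwards [mem_nhdsWithin_of_mem_nhds (eventually_all.2 h3), Ioo_mem_nhdsGT one_pos]
    with e h4 he
  have h5 := sc_pth (L := fun t i => e + (1 - e) * L t i) h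
    (contDiff_pi.2 fun i => contDiff_const.add (contDiff_const.mul (contDiff_pi.1 hL i))) he.1
    fun t i => le_add_of_nonneg_right (mul_nonneg (sub_nonneg.2 he.2.le) (h0 t i))
  refine h5.jn fun t ht u => ⟨h5.2.1 t u, fun x r => ?_⟩
  rw [sc_blk ((h.cd t u).differentiable (by simp)), dd_scale]
  generalize sx _ x = x
  by_cases hx : (u, x) ∈ K
  · have e1 : tr (k := k) r = tr (min r k) := funext fun i => by simp [tr, ind]
    rw [e1]
    exact h4 ⟨min r k, by omega⟩ (t, u, x) ⟨ht, hx⟩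
  · rw [fd_out (K := Prod.mk u ⁻¹' K) (hK.isClosed.preimage (by fun_prop))
      (fun x hx => h2 t (u, x) hx) hx, blk_id, dd_one]
    exact one_ne_zero

theorem sc_small (h : Pth Lag H) :
    ∀ᶠ e in 𝓝[>] (0 : ℝ), Jn LTr (fun u => sc (fun _ => e) (H 0 u))
      fun u => sc (fun _ => e) (H 1 u) := by
  simpa using sc_jn (L := fun _ _ => 0) h contDiff_const (fun _ _ => le_rfl) fun t u x r => by
    simp only [ne_eq, OfNat.ofNat_ne_zero, not_false_eq_true, zero_pow, mul_zero]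
    exact dd_zero.trans_ne one_ne_zero

theorem tr_pos {μ : U → EE m k → EE m k} (h : Fam LTr μ) (u : U) (x : EE m k) (r : ℕ) :
    0 < dd (blk (fderiv ℝ (μ u) x)) (tr r) := by
  obtain ⟨K, hK, h1⟩ := h.pth.cpt 0 u
  obtain ⟨y, hy⟩ := fd_id hK h1
  have c : Continuous fun x => dd (blk (fderiv ℝ (μ u) x)) (tr r) :=
    dd_cont ((blk_cont (h.pth.up fun _ u => (h.2.1 u).1)).comp
      (f := fun x => (((0 : ℝ), u), x)) (by fun_prop)) continuous_const
  by_contra h2
  obtain ⟨z, hz⟩ := intermediate_value_univ x y c (show (0 : ℝ) ∈ Icc _ _ from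
    ⟨not_lt.1 h2, by simp only [hy, blk_id, dd_one, zero_le_one]⟩)
  exact (h.2.1 u).2 z r hz

theorem sc_stair {μ : U → EE m k → EE m k} (h : Fam LTr μ) :
    ∀ᶠ e in 𝓝[>] (0 : ℝ), Jn LTr μ fun u => sc (fun _ => e) (μ u) := by
  have h7 : ContDiff ℝ ∞ smoothTransition := smoothTransition.contDiff
  have h1 := sc_jn (L := fun t i => 1 - smoothTransition (k * t - i.val))
    (h.pth.up fun _ u => (h.2.1 u).1) (contDiff_pi.2 fun i => by fun_prop)
    (fun t i => sub_nonneg.2 (smoothTransition.le_one _)) fun t u x r => by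
      refine (dd_stair (tr_pos h u x) (j := ⌊k * t⌋₊) (fun i hi => ?_) (fun i hi => ?_)
        (fun i => ⟨sub_nonneg.2 (smoothTransition.le_one _),
          sub_le_self _ (smoothTransition.nonneg _)⟩) r).ne'
      · have h2 : ((i.val + 1 : ℕ) : ℝ) ≤ k * t := (Nat.le_floor_iff' (by omega)).1 hi
        push_cast at h2
        rw [smoothTransition.one_of_one_le (by linarith), sub_self]
      · have h2 := Nat.lt_of_floor_lt hi
        rw [smoothTransition.zero_of_nonpos (by linarith), sub_zero]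
  filter_upwards [h1] with e he
  have e0 : (fun i : Fin k => e + (1 - e) * (1 - smoothTransition (k * 0 - i.val))) = 1 :=
    funext fun i => by
      rw [smoothTransition.zero_of_nonpos (by simp)]
      simp
  have e1 : (fun i : Fin k => e + (1 - e) * (1 - smoothTransition (k * 1 - i.val))) =
      fun _ => e := funext fun i => by
    have h2 : ((i.val + 1 : ℕ) : ℝ) ≤ k := Nat.cast_le.2 i.2
    push_cast at h2
    rw [smoothTransition.one_of_one_le (by linarith)]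
    simp
  simpa only [e0, e1, sc_one] using he

theorem sc_lag {μ : U → EE m k → EE m k} (h : Fam Lag μ) {e : ℝ} (he : e ∈ Ioo (0 : ℝ) 1) :
    ∃ G, Pth Lag G ∧ (G 0 = fun u => sc (fun _ => e) (μ u)) ∧ G 1 = μ := by
  have h7 : ContDiff ℝ ∞ smoothTransition := smoothTransition.contDiff
  refine ⟨_, sc_pth (L := fun t _ => e + (1 - e) * smoothTransition t) h.pth (by fun_prop) he.1
    fun t i => le_add_of_nonneg_right
      (mul_nonneg (sub_nonneg.2 he.2.le) (smoothTransition.nonneg t)), by simp, ?_⟩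
  simpa using (funext fun u => sc_one (g := μ u) : (fun u => sc (fun _ => 1) (μ u)) = μ)

end Pool.Agent.MP_630a92_gt.BC

end

section

/-! Generating data for a family of symplectomorphisms. -/

namespace Pool.Agent.MP_630a92_gt.BC

open Set Filter Topology Function Matrix ContinuousLinearMap
open scoped ContDiff

variable {m k : ℕ}

theorem om_clm (n : ℕ) : ∃ B : R2 n →L[ℝ] R2 n →L[ℝ] ℝ, ∀ u v, B u v = om u v :=
  ⟨LinearMap.toContinuousLinearMap (LinearMap.toContinuousLinearMap.toLinearMap ∘ₗ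
    LinearMap.mk₂ ℝ om (fun _ _ _ => by simp [om]; ring) (fun _ _ _ => by simp [om]; ring)
      (fun _ _ _ => by simp [om]; ring) (fun _ _ _ => by simp [om]; ring)), fun _ _ => rfl⟩

theorem om_anti {n : ℕ} (u v : R2 n) : om u v = -om v u := by
  simp only [om, dotProduct_comm u.1, dotProduct_comm u.2]
  ring

theorem out_conn {R : ℝ} (hR : 0 ≤ R) : IsPreconnected {z : R2 m | R < ‖z‖} := by
  rcases m with _ | m
  · exact Set.Subsingleton.isPreconnected fun _ _ _ _ => Subsingleton.elim _ _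
  have h1 : 1 < Module.rank ℝ (R2 (m + 1)) := by
    rw [← Module.finrank_eq_rank, Nat.one_lt_cast]
    simp
    omega
  have h2 := (isConnected_compl_singleton_of_one_lt_rank h1 0).isPreconnected.image
    (fun y => (1 + R * ‖y‖⁻¹) • y) ((continuousOn_const.add (continuousOn_const.mul
      (continuous_norm.continuousOn.inv₀ fun y hy => norm_ne_zero_iff.2 hy))).smul continuousOn_id)
  refine (congrArg IsPreconnected (Subset.antisymm ?_ fun z hz => ?_)).mp h2
  · rintro _ ⟨y, hy, rfl⟩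
    have h3 : 0 < ‖y‖ := norm_pos_iff.2 hy
    rw [mem_ofPred, norm_smul, Real.norm_of_nonneg (by positivity), add_mul, mul_assoc,
      inv_mul_cancel₀ h3.ne']
    linarith
  · have h3 : 0 < ‖z‖ - R := sub_pos.2 hz
    have h4 : 0 < ‖z‖ := by linarith
    refine ⟨((‖z‖ - R) / ‖z‖) • z, smul_ne_zero (by positivity) (norm_pos_iff.1 h4), ?_⟩
    simp only
    rw [smul_smul, norm_smul, Real.norm_of_nonneg (by positivity)]
    conv_rhs => rw [← one_smul ℝ z]
    congr 1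
    field_simp
    ring

variable {X V W T : Type} [NormedAddCommGroup X] [NormedSpace ℝ X] [NormedAddCommGroup V]
  [NormedSpace ℝ V] [NormedAddCommGroup W] [NormedSpace ℝ W] [NormedAddCommGroup T]
  [NormedSpace ℝ T]

theorem sym2 {f : X → V} (hf : ContDiff ℝ ∞ f) (x u v : X) :
    fderiv ℝ (fderiv ℝ f) x u v = fderiv ℝ (fderiv ℝ f) x v u :=
  hf.contDiffAt.isSymmSndFDerivAt (by
    rw [minSmoothness_of_isRCLikeNormedField]
    exact WithTop.coe_le_coe.2 (OrderTop.le_top (2 : ℕ∞))) u v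

theorem slice_fl {Y : Type} [NormedAddCommGroup Y] [NormedSpace ℝ Y] {G : V × W → Y}
    (hG : ContDiff ℝ ∞ G) (x : V × W) (u : V) :
    fderiv ℝ (fun z => G (z, x.2)) x.1 u = fderiv ℝ G x (u, 0) := by
  have h := (hG.differentiable (by simp) (x.1, x.2)).hasFDerivAt.comp x.1
    (hasFDerivAt_prodMk_left (𝕜 := ℝ) x.1 x.2)
  exact congr($(h.fderiv) u)

theorem fd_fam {G : T × X → V} (hG : ContDiff ℝ ∞ G) :
    ContDiff ℝ ∞ fun y : T × X => fderiv ℝ (fun x => G (y.1, x)) y.2 :=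
  ContDiff.fderiv (f := fun (y : T × X) x => G (y.1, x))
    (hG.comp (f := fun y : (T × X) × X => (y.1.1, y.2)) (by fun_prop)) contDiff_snd (by simp)

theorem pb_fd (B : V →L[ℝ] V →L[ℝ] ℝ) {F : X → V} (hF : ContDiff ℝ ∞ F) (x : X) :
    ∃ D : X →L[ℝ] X →L[ℝ] ℝ, HasFDerivAt (fun y => (B (F y)).comp (fderiv ℝ F y)) D x ∧
      ∀ u v, D u v - D v u =
        B (fderiv ℝ F x u) (fderiv ℝ F x v) - B (fderiv ℝ F x v) (fderiv ℝ F x u) := by
  refine ⟨_, (B.hasFDerivAt.comp x (hF.differentiable (by simp) x).hasFDerivAt).clm_comp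
    ((contDiff_infty_iff_fderiv.1 hF).2.differentiable (by simp) x).hasFDerivAt, fun u v => ?_⟩
  simp [sym2 hF x u v]

theorem fib_prim [FiniteDimensional ℝ T] [FiniteDimensional ℝ V] [FiniteDimensional ℝ W]
    {s : T × V × W → V × W →L[ℝ] ℝ} (hs : ContDiff ℝ ∞ s)
    (hc : ∀ t x u v, fderiv ℝ (fun x => s (t, x)) x (u, 0) (v, 0) =
      fderiv ℝ (fun x => s (t, x)) x (v, 0) (u, 0)) (z₀ : V) :
    ∃ f : T × V × W → ℝ, ContDiff ℝ ∞ f ∧
      (∀ t z w, HasFDerivAt (fun z => f (t, z, w)) ((s (t, z, w)).comp (inl ℝ V W)) z) ∧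
      ∀ t w, f (t, z₀, w) = 0 := by
  refine ⟨fun y => ∫ r in (0 : ℝ)..1, s (y.1, r • (y.2.1 - z₀) + z₀, y.2.2) (y.2.1 - z₀, 0),
    int_smooth (G := fun p : (T × V × W) × ℝ =>
      s (p.1.1, p.2 • (p.1.2.1 - z₀) + z₀, p.1.2.2) (p.1.2.1 - z₀, 0))
      ((hs.comp (by fun_prop)).clm_apply (by fun_prop)), fun t z w => ?_, fun t w => ?_⟩
  · have h1 := fun z : V => ((((slice_cd hs t).differentiable (by simp) (z, w)).hasFDerivAt.comp z
      (hasFDerivAt_prodMk_left (𝕜 := ℝ) z w)).clm_comp (hasFDerivAt_const (inl ℝ V W) z))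
    have h2 := convex_univ.hasFDerivWithinAt_curveIntegral_segment_of_hasFDerivWithinAt_symmetric
      (fun z _ => (h1 z).hasFDerivWithinAt) (fun a _ u _ v _ => by simpa using hc t (a, w) u v)
      (mem_univ z₀) (mem_univ z)
    simp only [curveIntegral_segment, AffineMap.lineMap_apply_module', hasFDerivWithinAt_univ] at h2
    exact h2
  · simp [show ((0, 0) : V × W) = 0 from rfl]

theorem lin_dec (D : EE m k →L[ℝ] ℝ) (h : ∀ z, D (z, 0) = 0) (v : EE m k) :
    D v = (fun i => D (0, Pi.single i 1, 0)) ⬝ᵥ v.2.1 +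
      (fun i => D (0, 0, Pi.single i 1)) ⬝ᵥ v.2.2 := by
  have h1 : v = (v.1, 0) + (∑ i, v.2.1 i • ((0, Pi.single i 1, 0) : EE m k) +
      ∑ i, v.2.2 i • ((0, 0, Pi.single i 1) : EE m k)) := by
    refine Prod.ext (by simp [Prod.fst_sum]) (Prod.ext ?_ ?_) <;> ext i <;>
      simp [Prod.fst_sum, Prod.snd_sum, Pi.single_apply]
  conv_lhs => rw [h1]
  simp only [map_add, map_sum, map_smul, h, zero_add, dotProduct, smul_eq_mul, mul_comm]

variable {U : Type} [NormedAddCommGroup U] [NormedSpace ℝ U] [FiniteDimensional ℝ U]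

theorem prim {H : ℝ → U × R2 k → R2 m → R2 m} (h : Pth (IsSymp om) H) :
    ∃ G, Pth Lag G ∧ ∀ t, fs (G t) = H t := by
  obtain ⟨B, hB⟩ := om_clm m
  obtain ⟨K, hK, h1⟩ := h.2.2
  obtain ⟨R, hR, h2⟩ := hK.isBounded.subset_closedBall_lt 0 0
  let F : (ℝ × U) × EE m k → R2 m := fun y => H y.1.1 (y.1.2, y.2.2) y.2.1
  have hF : ContDiff ℝ ∞ F :=
    h.1.comp (f := fun y : (ℝ × U) × EE m k => ((y.1.1, y.1.2, y.2.2), y.2.1)) (by fun_prop)
  have h3 : ∀ (p : ℝ × U) (x : EE m k), R < ‖(p.2, x)‖ → F (p, x) = x.1 := fun p x hx =>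
    h1 p.1 ((p.2, x.2), x.1) fun a => by
      have := mem_closedBall_zero_iff.1 (h2 a)
      simp only [Prod.norm_def] at this hx
      simp only [max_le_iff] at this
      exact hx.not_ge (max_le this.1.1
        (max_le (max_le this.2.1 this.2.2) (max_le this.1.2.1 this.1.2.2)))
  have ho : ∀ u : U, IsOpen {x : EE m k | R < ‖(u, x)‖} := fun u =>
    isOpen_lt continuous_const (by fun_prop)
  let s : (ℝ × U) × EE m k → EE m k →L[ℝ] ℝ := fun y => (2 : ℝ)⁻¹ •
    ((B (F y)).comp (fderiv ℝ (fun x => F (y.1, x)) y.2) - (B y.2.1).comp (fderiv ℝ Prod.fst y.2))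
  have hs : ContDiff ℝ ∞ s := (((B.contDiff.comp hF).clm_comp (fd_fam hF)).sub
    ((B.contDiff.comp contDiff_snd.fst).clm_comp
      (fd_fam (G := fun y : (ℝ × U) × EE m k => y.2.1) (by fun_prop)))).const_smul _
  have h4 : ∀ p x u v, fderiv ℝ (fun x => s (p, x)) x u v - fderiv ℝ (fun x => s (p, x)) x v u =
      om (fderiv ℝ (fun x => F (p, x)) x u) (fderiv ℝ (fun x => F (p, x)) x v) - om u.1 v.1 := by
    intro p x u v
    obtain ⟨D, a1, a2⟩ := pb_fd B (slice_cd hF p) x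
    obtain ⟨D', b1, b2⟩ := pb_fd B (F := (Prod.fst : EE m k → R2 m)) contDiff_fst x
    rw [show fderiv ℝ (fun x => s (p, x)) x = _ from ((a1.sub b1).const_smul (2 : ℝ)⁻¹).fderiv]
    have a3 := a2 u v
    have b3 := b2 u v
    simp only [fderiv_fst, hB, coe_fst'] at a3 b3
    rw [om_anti (fderiv ℝ (fun x => F (p, x)) x v)] at a3
    rw [om_anti v.1] at b3
    simp only [_root_.smul_apply, _root_.sub_apply, smul_eq_mul]
    linarith
  have h5 : ∀ (p : ℝ × U) (x : EE m k), R < ‖(p.2, x)‖ → s (p, x) = 0 := fun p x hx => by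
    have : (fun x => F (p, x)) =ᶠ[𝓝 x] Prod.fst := by
      filter_upwards [(ho p.2).mem_nhds hx] with y hy using h3 p y hy
    simp only [s, this.fderiv_eq, h3 p x hx, sub_self, smul_zero]
  obtain ⟨z₀, hz₀⟩ : ∃ z₀ : R2 m, ∀ z : R2 m, R < ‖z‖ → R < ‖z₀‖ := by
    by_cases a : ∃ z : R2 m, R < ‖z‖
    · exact ⟨a.choose, fun _ _ => a.choose_spec⟩
    · exact ⟨0, fun z hz => (a ⟨z, hz⟩).elim⟩
  obtain ⟨f, hf, h6, h7⟩ := fib_prim hs (fun p x u v => by
    rw [← sub_eq_zero, h4, sub_eq_zero]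
    rw [← slice_fl (slice_cd hF p), ← slice_fl (slice_cd hF p)]
    exact (h.2.1 p.1 (p.2, x.2)).2.2 x.1 u v) z₀
  have h8 : ∀ (p : ℝ × U) (x : EE m k), R < ‖(p.2, x)‖ → f (p, x) = 0 := by
    rintro p ⟨z, w⟩ hx
    have a : ∀ z', R < ‖(p.2, z', w)‖ → fderiv ℝ (fun z => f (p, z, w)) z' = 0 := fun z' b => by
      rw [(h6 p z' w).fderiv, h5 p _ b, zero_comp]
    have d : Differentiable ℝ fun z => f (p, z, w) := fun z => (h6 p z w).differentiableAt
    rw [← h7 p w]
    by_cases b : R < ‖z‖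
    · exact (isOpen_lt continuous_const continuous_norm).is_const_of_fderiv_eq_zero
        (out_conn hR.le) d.differentiableOn (fun z' c => a z' (lt_of_lt_of_le c
          ((norm_fst_le (z', w)).trans (norm_snd_le (p.2, z', w))))) b (hz₀ z b)
    · refine is_const_of_fderiv_eq_zero d (fun z' => a z' ?_) z z₀
      simp only [Prod.norm_mk, lt_max_iff] at hx ⊢
      tauto
  let e : (ℝ × U) × EE m k → EE m k →L[ℝ] ℝ := fun y =>
    s y - fderiv ℝ (fun x => f (y.1, x)) y.2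
  have he : ContDiff ℝ ∞ e := hs.sub (fd_fam hf)
  have e1 : ∀ p x z, e (p, x) (z, 0) = 0 := fun p x z => by
    refine sub_eq_zero.2 (.trans ?_ (slice_fl (slice_cd hf p) x z))
    rw [(h6 p x.1 x.2).fderiv]
    rfl
  have e2 : ∀ (p : ℝ × U) (x : EE m k), R < ‖(p.2, x)‖ → e (p, x) = 0 := fun p x hx => by
    have : (fun x => f (p, x)) =ᶠ[𝓝 x] fun _ => 0 := by
      filter_upwards [(ho p.2).mem_nhds hx] with y hy using h8 p y hy
    simp [e, this.fderiv_eq, h5 p x hx]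
  let ea : (EE m k →L[ℝ] ℝ) →L[ℝ] Fin k → ℝ :=
    ContinuousLinearMap.pi fun i => ContinuousLinearMap.apply ℝ ℝ (0, Pi.single i 1, 0)
  let eb : (EE m k →L[ℝ] ℝ) →L[ℝ] Fin k → ℝ :=
    ContinuousLinearMap.pi fun i => ContinuousLinearMap.apply ℝ ℝ (0, 0, Pi.single i 1)
  have := FiniteDimensional.proper_real (U × EE m k)
  refine ⟨fun t u x => (F ((t, u), x), x.2.1 - eb (e ((t, u), x)), x.2.2 - ea (e ((t, u), x))),
    ⟨hF.prodMk ((contDiff_snd.snd.fst.sub (eb.contDiff.comp he)).prodMk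
      (contDiff_snd.snd.snd.sub (ea.contDiff.comp he))), fun t p x => ?_,
      _, isCompact_closedBall 0 R, fun t y hy => ?_⟩, fun t => rfl⟩
  · have a1 := ((slice_cd he (t, p)).differentiable (by simp) x).hasFDerivAt
    have a2 := ((slice_cd hF (t, p)).differentiable (by simp) x).hasFDerivAt.prodMk
      ((hasFDerivAt_snd.fst.sub (eb.hasFDerivAt.comp x a1)).prodMk
        (hasFDerivAt_snd.snd.sub (ea.hasFDerivAt.comp x a1)))
    refine (congrArg (fun A : EE m k →L[ℝ] EE m k => Lg A) a2.fderiv).mpr fun u v => ?_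
    have a3 : ∀ u z, fderiv ℝ (fun x => e ((t, p), x)) x u (z, 0) = 0 := fun u z => by
      have b := (a1.clm_apply (hasFDerivAt_const ((z, 0) : EE m k) x)).unique
        ((hasFDerivAt_const 0 x).congr_of_eventuallyEq (.of_forall fun y => e1 _ y z))
      simpa using congr($b u)
    have a4 := (((slice_cd hs (t, p)).differentiable (by simp) x).hasFDerivAt.sub
      ((contDiff_infty_iff_fderiv.1 (slice_cd hf (t, p))).2.differentiable (by simp)
        x).hasFDerivAt).unique a1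
    have a5 := congr($a4 u v)
    have a6 := congr($a4 v u)
    have a7 := h4 (t, p) x u v
    have a8 := sym2 (slice_cd hf (t, p)) x u v
    rw [lin_dec _ (a3 u) v] at a5
    rw [lin_dec _ (a3 v) u] at a6
    generalize fderiv ℝ (fun x => e ((t, p), x)) x = D at *
    change _ = ea (D u) ⬝ᵥ v.2.1 + eb (D u) ⬝ᵥ v.2.2 at a5
    change _ = ea (D v) ⬝ᵥ u.2.1 + eb (D v) ⬝ᵥ u.2.2 at a6
    change om (fderiv ℝ (fun x => F ((t, p), x)) x u) (fderiv ℝ (fun x => F ((t, p), x)) x v) +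
      ((u.2.1 - eb (D u)) ⬝ᵥ v.2.2 - u.2.2 ⬝ᵥ (v.2.1 - eb (D v))) =
        om u.1 v.1 + (u.2.1 ⬝ᵥ (v.2.2 - ea (D v)) - (u.2.2 - ea (D u)) ⬝ᵥ v.2.1)
    simp only [_root_.sub_apply] at a5 a6
    simp only [sub_dotProduct, dotProduct_sub, dotProduct_comm u.2.2 (eb _),
      dotProduct_comm u.2.1 (ea _)]
    linarith
  · have a : R < ‖y‖ := not_le.1 fun b => hy (mem_closedBall_zero_iff.2 b)
    simp only [h3 (t, y.1) y.2 a, e2 (t, y.1) y.2 a, map_zero, sub_zero]

end Pool.Agent.MP_630a92_gt.BC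

end

section

/-! The bijection on homotopy classes. -/

namespace Pool.Agent.MP_630a92_gt.BC

open Set Filter Topology Function Matrix
open scoped ContDiff

variable {m k : ℕ} {U : Type} [NormedAddCommGroup U] [NormedSpace ℝ U]
  {φ ψ μ ν : U → EE m k → EE m k} {F G : U × R2 k → R2 m → R2 m}

theorem cvx (hμ : Fam Lag μ) (hν : Fam Lag ν) (h : fs μ = fs ν) : Jn Lag μ ν := by
  obtain ⟨K, hK, h1⟩ := hμ.2.2
  obtain ⟨L, hL, h2⟩ := hν.2.2
  refine ⟨fun t u x => μ u x + t • (ν u x - μ u x), ⟨hμ.pth.1.add (contDiff_fst.fst.smul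
    (hν.pth.1.sub hμ.pth.1)), fun t p x => ?_, K ∪ L, hK.union hL, fun t y hy => ?_⟩,
    by simp, by simp⟩
  · have a1 := ((hμ.pth.cd 0 p).differentiable (by simp) x).hasFDerivAt
    have a2 := ((hν.pth.cd 0 p).differentiable (by simp) x).hasFDerivAt
    have a3 := (a1.fst.congr_of_eventuallyEq (.of_forall fun y =>
      (congr($h (p, y.2) y.1)).symm)).unique a2.fst
    refine (congrArg (fun A : EE m k →L[ℝ] EE m k => Lg A)
      (a1.add ((a2.sub a1).const_smul t)).fderiv).mpr fun u v => ?_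
    have b1 := hμ.2.1 p x u v
    have b2 := hν.2.1 p x u v
    have c1 : (fderiv ℝ (μ p) x u).1 = (fderiv ℝ (ν p) x u).1 := congr($a3 u)
    have c2 : (fderiv ℝ (μ p) x v).1 = (fderiv ℝ (ν p) x v).1 := congr($a3 v)
    simp only [_root_.add_apply, _root_.smul_apply, _root_.sub_apply, Prod.fst_add, Prod.smul_fst,
      Prod.fst_sub, Prod.snd_add, Prod.smul_snd, Prod.snd_sub, ← c1, ← c2, sub_self, smul_zero,
      add_zero] at b2 ⊢
    generalize om (fderiv ℝ (μ p) x u).1 (fderiv ℝ (μ p) x v).1 = a at *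
    generalize om u.1 v.1 = b at *
    simp only [om, add_dotProduct, dotProduct_add, smul_dotProduct, dotProduct_smul,
      sub_dotProduct, dotProduct_sub, smul_eq_mul] at b1 b2 ⊢
    linear_combination (1 - t) * b1 + t * b2
  · simp only [h1 y fun a => hy (.inl a), h2 y fun a => hy (.inr a), sub_self, smul_zero, add_zero]

theorem Fam.lag (h : Fam LTr μ) : Fam Lag μ := ⟨h.1, fun u => (h.2.1 u).1, h.2.2⟩

variable [FiniteDimensional ℝ U]

theorem ex_fam (h : Fam Cell φ) : ∃ μ, Fam LTr μ ∧ ∀ u, Ex (φ u) (μ u) :=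
  let ⟨G, h1, h2⟩ := ex_cell h.pth
  ⟨G 0, h1.fam 0, h2 0⟩

theorem red_ex (h : Fam Cell φ) : ∃! F, Fam (IsSymp om) F ∧ Red φ F :=
  let ⟨μ, h1, h2⟩ := ex_fam h
  ⟨fs μ, ⟨(fs_pth h1.lag.pth).fam 0, (red_iff h2).2 rfl⟩, fun _ h3 => (red_iff h2).1 h3.2⟩

theorem red_onto (h : Fam (IsSymp om) F) : ∃ (φ : U → EE m k → EE m k)
    (G : U × R2 k → R2 m → R2 m), Fam Cell φ ∧ Fam (IsSymp om) G ∧ Red φ G ∧
      Homot (IsSymp om) G F := by
  obtain ⟨M, h1, h2⟩ := prim h.pth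
  obtain ⟨e, ⟨N, h3, h4, -⟩, he⟩ := ((sc_small h1).and (Ioo_mem_nhdsGT one_pos)).exists
  obtain ⟨Φ, h5, h6⟩ := ex_ltr h3
  obtain ⟨S, h7, h8, h9⟩ := sc_lag (h1.fam 0) he
  refine ⟨Φ 0, fs (N 0), h5.fam 0, (fs_pth (h3.fam 0).lag.pth).fam 0, (red_iff (h6 0)).2 rfl,
    jn_iff.2 ⟨_, fs_pth h7, ?_, ?_⟩⟩
  · simp only [h8, h4]
  · simp only [h9, h2]

theorem red_hom (hφ : Fam Cell φ) (hψ : Fam Cell ψ) (h1 : Red φ F) (h2 : Red ψ G) :
    Homot Cell φ ψ ↔ Homot (IsSymp om) F G := by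
  rw [jn_iff, jn_iff]
  constructor
  · rintro ⟨H, h3, rfl, rfl⟩
    obtain ⟨M, h4, h5⟩ := ex_cell h3
    exact ⟨_, fs_pth (h4.up fun t u => (h4.2.1 t u).1), ((red_iff (h5 0)).1 h1).symm,
      ((red_iff (h5 1)).1 h2).symm⟩
  · rintro ⟨H, h3, h4, h5⟩
    obtain ⟨μ, a1, a2⟩ := ex_fam hφ
    obtain ⟨ν, b1, b2⟩ := ex_fam hψ
    obtain ⟨M, c1, c2⟩ := prim h3
    obtain ⟨N, d1, d2, d3⟩ := ((cvx a1.lag (c1.fam 0)
      (by rw [c2, h4, (red_iff a2).1 h1])).trans ⟨M, c1, rfl, rfl⟩).trans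
      (cvx (c1.fam 1) b1.lag (by rw [c2, h5, (red_iff b2).1 h2]))
    obtain ⟨e, e1, e2, e3⟩ := ((sc_stair a1).and ((sc_small d1).and (sc_stair b1))).exists
    rw [d2, d3] at e2
    obtain ⟨S, f1, f2, f3⟩ := (e1.trans e2).trans e3.symm
    obtain ⟨Φ, g1, g2⟩ := ex_ltr f1
    refine ⟨Φ, g1, funext fun u => ?_, funext fun u => ?_⟩
    · exact (f2 ▸ g2 0 u).symm.uniq (a2 u).symm
    · exact (f3 ▸ g2 1 u).symm.uniq (b2 u).symm

end Pool.Agent.MP_630a92_gt.BC

end
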